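import Pool.Agent.Q93.OS.Solv

/-!
# Order sequences
-/

namespace Pool.Agent.Q93.OS

/-- The order sequence of a finite group: the orders of its elements, sorted increasingly. -/
noncomputable def os (G : Type) [Group G] [Fintype G] : List ℕ :=
  ((Finset.univ : Finset G).val.map (fun g => orderOf g)).sort (· ≤ ·)

/-- `l` dominates `l'`: the lists have the same length and each entry of `l` is at least the
corresponding entry of `l'`. -/
def Dominates (l l' : List ℕ) : Prop := List.Forall₂ (fun a b => b ≤ a) l l'

/-- The finite group `G` has minimal order sequence. -/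
def MinimalOS (G : Type) [Group G] [Fintype G] : Prop :=
  ∀ (H : Type) [Group H] [Fintype H], Fintype.card H = Fintype.card G →
    Dominates (os G) (os H) → os H = os G

theorem forall2_of_countP : ∀ (l l' : List ℕ), l.length = l'.length →
    l.Pairwise (· ≤ ·) → l'.Pairwise (· ≤ ·) →
    (∀ k, l.countP (· ≤ k) ≤ l'.countP (· ≤ k)) → List.Forall₂ (fun a b => b ≤ a) l l'
  | [], [], _, _, _, _ => List.Forall₂.nil
  | [], b :: t', h, _, _, _ => by simp at h
  | a :: t, [], h, _, _, _ => by simp at h
  | a :: t, b :: t', h, hs, hs', hc => by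
    rw [List.pairwise_cons] at hs hs'
    have hab : b ≤ a := by
      have h1 := hc a
      have h2 : 0 < (a :: t).countP (· ≤ a) := by
        rw [List.countP_pos_iff]; exact ⟨a, by simp, by simp⟩
      obtain ⟨x, hx, hxa⟩ := List.countP_pos_iff.1 (lt_of_lt_of_le h2 h1)
      simp only [decide_eq_true_eq] at hxa
      rcases List.mem_cons.1 hx with rfl | hx
      · exact hxa
      · exact (hs'.1 x hx).trans hxa
    refine List.Forall₂.cons hab (forall2_of_countP t t' (by simpa using h) hs.2 hs'.2 ?_)
    intro k
    by_cases hk : a ≤ k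
    · have h1 := hc k
      rw [List.countP_cons_of_pos (by simpa using hk),
        List.countP_cons_of_pos (by simpa using hab.trans hk)] at h1
      omega
    · have : t.countP (· ≤ k) = 0 := by
        rw [List.countP_eq_zero]
        intro x hx
        have := hs.1 x hx
        simp only [decide_eq_true_eq]
        omega
      rw [this]; exact Nat.zero_le _

theorem countP_os (G : Type) [Group G] [Fintype G] (k : ℕ) :
    (os G).countP (· ≤ k) = (Finset.univ.filter (fun g : G => orderOf g ≤ k)).card := by
  have h1 : (((os G).countP (· ≤ k) : ℕ)) = Multiset.countP (· ≤ k) ((os G : List ℕ) : Multiset ℕ) := by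
    rw [Multiset.coe_countP]
  rw [h1, os, Multiset.sort_eq, Multiset.countP_map, Finset.card_def, Finset.filter_val]

theorem length_os (G : Type) [Group G] [Fintype G] : (os G).length = Fintype.card G := by
  rw [os, Multiset.length_sort, Multiset.card_map]; rfl

theorem dominates_of_count (G H : Type) [Group G] [Fintype G] [Group H] [Fintype H]
    (hc : Fintype.card G = Fintype.card H)
    (h : ∀ k, (Finset.univ.filter (fun g : G => orderOf g ≤ k)).card ≤
      (Finset.univ.filter (fun g : H => orderOf g ≤ k)).card) : Dominates (os G) (os H) := by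
  apply forall2_of_countP
  · rw [length_os, length_os, hc]
  · exact Multiset.pairwise_sort _ _
  · exact Multiset.pairwise_sort _ _
  · intro k
    rw [countP_os, countP_os]
    exact h k

/-- The affine group of the field with 61 elements. -/
@[ext] structure Aff where
  /-- the linear part -/
  a : (ZMod 61)ˣ
  /-- the translation part -/
  b : ZMod 61

namespace Aff

instance : Mul Aff := ⟨fun x y => ⟨x.a * y.a, x.b + x.a * y.b⟩⟩
instance : One Aff := ⟨⟨1, 0⟩⟩
instance : Inv Aff := ⟨fun x => ⟨x.a⁻¹, -((x.a⁻¹ : (ZMod 61)ˣ) : ZMod 61) * x.b⟩⟩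

theorem mul_a (x y : Aff) : (x * y).a = x.a * y.a := rfl
theorem mul_b (x y : Aff) : (x * y).b = x.b + x.a * y.b := rfl
theorem one_a : (1 : Aff).a = 1 := rfl
theorem one_b : (1 : Aff).b = 0 := rfl
theorem inv_a (x : Aff) : (x⁻¹).a = x.a⁻¹ := rfl
theorem inv_b (x : Aff) : (x⁻¹).b = -((x.a⁻¹ : (ZMod 61)ˣ) : ZMod 61) * x.b := rfl

instance : Group Aff where
  mul_assoc x y z := by
    ext1
    · simp only [mul_a, mul_assoc]
    · simp only [mul_b, mul_a, Units.val_mul]; ring
  one_mul x := by
    ext1
    · simp only [mul_a, one_a, one_mul]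
    · simp only [mul_b, one_a, one_b]; simp
  mul_one x := by
    ext1
    · simp only [mul_a, one_a, mul_one]
    · simp only [mul_b, one_b]; simp
  inv_mul_cancel x := by
    ext1
    · simp only [mul_a, inv_a, one_a, inv_mul_cancel]
    · simp only [mul_b, inv_b, inv_a, one_b]; ring

/-- `Aff` as a product set. -/
def equiv : Aff ≃ (ZMod 61)ˣ × ZMod 61 where
  toFun x := (x.a, x.b)
  invFun x := ⟨x.1, x.2⟩
  left_inv _ := rfl
  right_inv _ := rfl

instance : Finite Aff := Finite.of_equiv _ equiv.symm

noncomputable instance : Fintype Aff := Fintype.ofFinite _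

instance : Fact (Nat.Prime 61) := ⟨by norm_num⟩

theorem card : Fintype.card Aff = 3660 := by
  have h1 : Fintype.card Aff = Fintype.card ((ZMod 61)ˣ × ZMod 61) := Fintype.card_congr equiv
  rw [h1, Fintype.card_prod, ZMod.card_units_eq_totient, ZMod.card,
    Nat.totient_prime (by norm_num)]

theorem pow_a (x : Aff) (n : ℕ) : (x ^ n).a = x.a ^ n := by
  induction n with
  | zero => rw [pow_zero, pow_zero, one_a]
  | succ n ih => rw [pow_succ, mul_a, ih, pow_succ]

theorem pow_b_of_one (x : Aff) (h : x.a = 1) (n : ℕ) : (x ^ n).b = n * x.b := by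
  induction n with
  | zero => rw [pow_zero, one_b]; simp
  | succ n ih => rw [pow_succ, mul_b, ih, pow_a, h]; simp; ring

/-- An element with nontrivial linear part is killed by 60. -/
theorem pow_sixty (x : Aff) (h : x.a ≠ 1) : x ^ 60 = 1 := by
  have hfix : ∀ n : ℕ, (x ^ n).b * ((x.a : ZMod 61) - 1) = ((x.a : ZMod 61) ^ n - 1) * x.b := by
    intro n
    induction n with
    | zero => rw [pow_zero, one_b]; simp
    | succ n ih =>
      rw [pow_succ', mul_b]
      have : (x.b + x.a * (x ^ n).b) * ((x.a : ZMod 61) - 1) =
          x.b * ((x.a : ZMod 61) - 1) + x.a * ((x ^ n).b * ((x.a : ZMod 61) - 1)) := by ring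
      rw [this, ih]; ring
  have h60 : x.a ^ 60 = 1 := by
    have := pow_card_eq_one (x := x.a)
    rw [ZMod.card_units_eq_totient, Nat.totient_prime (by norm_num)] at this
    exact this
  have ha : ((x.a : ZMod 61) - 1) ≠ 0 := by
    intro h0
    apply h
    ext
    simpa using sub_eq_zero.1 h0
  ext1
  · rw [pow_a, h60, one_a]
  · rw [one_b]
    have h1 := hfix 60
    have h2 : ((x.a : ZMod 61) ^ 60 - 1) = 0 := by
      rw [← Units.val_pow_eq_pow_val, h60]; simp
    rw [h2, zero_mul] at h1
    exact (mul_eq_zero.1 h1).resolve_right ha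

theorem pow_sixtyone (x : Aff) (h : x.a = 1) : x ^ 61 = 1 := by
  ext1
  · rw [pow_a, h, one_pow, one_a]
  · rw [pow_b_of_one x h, one_b]
    have : ((61 : ℕ) : ZMod 61) = 0 := ZMod.natCast_self 61
    rw [this, zero_mul]

theorem orderOf_le (x : Aff) : orderOf x ≤ 61 := by
  by_cases h : x.a = 1
  · exact Nat.le_of_dvd (by norm_num) (orderOf_dvd_of_pow_eq_one (pow_sixtyone x h))
  · exact (Nat.le_of_dvd (by norm_num) (orderOf_dvd_of_pow_eq_one (pow_sixty x h))).trans
      (by norm_num)

/-- The reflections. -/
def refl (c : ZMod 61) : Aff := ⟨-1, c⟩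

theorem refl_sq (c : ZMod 61) : refl c ^ 2 = 1 := by
  rw [pow_two]
  ext1
  · simp [mul_a, refl, one_a]
  · simp [mul_b, refl, one_b]

theorem many_small : 61 ≤ (Finset.univ.filter (fun g : Aff => orderOf g ≤ 2)).card := by
  classical
  have h1 : (Finset.univ.image refl).card = 61 := by
    rw [Finset.card_image_of_injective _ (fun c c' h => congrArg Aff.b h), Finset.card_univ,
      ZMod.card]
  rw [← h1]
  apply Finset.card_le_card
  intro x hx
  obtain ⟨c, -, rfl⟩ := Finset.mem_image.1 hx
  rw [Finset.mem_filter]
  exact ⟨Finset.mem_univ _, Nat.le_of_dvd (by norm_num) (orderOf_dvd_of_pow_eq_one (refl_sq c))⟩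

end Aff

/-- Few elements of order at most 60 in a non-solvable group of order 3660. -/
theorem few_small {G : Type} [Group G] [Fintype G] (h : Fintype.card G = 3660)
    (hns : ¬ Group.IsSolvable G) :
    (Finset.univ.filter (fun g : G => orderOf g ≤ 60)).card ≤ 60 := by
  classical
  have h' : Nat.card G = 3660 := by rw [Nat.card_eq_fintype_card, h]
  obtain ⟨Q, hQ, hQi, hQc⟩ := central_of_not_solvable h' hns
  have hdvd : ∀ g : G, orderOf g ≤ 60 → g ^ 60 = 1 := by
    intro g hg
    have h1 : orderOf g ∣ 61 * 60 := by
      have := orderOf_dvd_natCard g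
      rw [h'] at this
      exact this
    have h2 : Nat.Coprime (orderOf g) 61 := by
      rw [Nat.coprime_comm, Nat.Prime.coprime_iff_not_dvd (by norm_num)]
      intro h3
      have := Nat.le_of_dvd (orderOf_pos g) h3
      omega
    exact orderOf_dvd_iff_pow_eq_one.1 (h2.dvd_of_dvd_mul_left h1)
  have hinj : Set.InjOn (fun g : G => (g : G ⧸ Q))
      (Finset.univ.filter (fun g : G => orderOf g ≤ 60) : Set G) := by
    intro g hg g' hg' hgg
    rw [Finset.mem_coe, Finset.mem_filter] at hg hg'
    have hz : g⁻¹ * g' ∈ Q := QuotientGroup.eq.1 hgg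
    set z := g⁻¹ * g' with hzdef
    have hg'z : g' = g * z := by rw [hzdef]; group
    have hcomm : Commute g z := by
      have := Subgroup.mem_center_iff.1 (hQc hz) g
      exact this
    have h1 : z ^ 60 = 1 := by
      have h2 := hdvd g' hg'.2
      rw [hg'z, hcomm.mul_pow, hdvd g hg.2, one_mul] at h2
      exact h2
    have h2 : z ^ 61 = 1 := by
      have : (⟨z, hz⟩ : Q) ^ Nat.card Q = 1 := pow_card_eq_one'
      rw [hQ] at this
      exact congrArg Subtype.val this
    have h3 : z = 1 := by
      have : z ^ 61 = z ^ 60 * z := pow_succ z 60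
      rw [h1, h2, one_mul] at this
      exact this.symm
    rw [hg'z, h3, mul_one]
  have hfin : Finite (G ⧸ Q) := inferInstance
  have : Fintype (G ⧸ Q) := Fintype.ofFinite _
  calc (Finset.univ.filter (fun g : G => orderOf g ≤ 60)).card
      = ((Finset.univ.filter (fun g : G => orderOf g ≤ 60)).image
          (fun g : G => (g : G ⧸ Q))).card := (Finset.card_image_of_injOn hinj).symm
    _ ≤ Fintype.card (G ⧸ Q) := Finset.card_le_univ _
    _ = 60 := by rw [← Nat.card_eq_fintype_card]; exact hQi

theorem not_minimal {G : Type} [Group G] [Fintype G] (h : Fintype.card G = 3660)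
    (hns : ¬ Group.IsSolvable G) : ¬ MinimalOS G := by
  intro hmin
  have hdom : Dominates (os G) (os Aff) := by
    apply dominates_of_count
    · exact h.trans Aff.card.symm
    intro k
    rcases Nat.lt_or_ge k 2 with hk | hk
    · -- at most one element
      rcases Nat.eq_zero_or_pos k with rfl | hk0
      · have : (Finset.univ.filter (fun g : G => orderOf g ≤ 0)) = ∅ := by
          rw [Finset.filter_eq_empty_iff]
          intro g _ hg
          have := orderOf_pos g
          omega
        rw [this]; simp
      · have hk1 : k = 1 := by omega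
        subst hk1
        have h1 : (Finset.univ.filter (fun g : G => orderOf g ≤ 1)) = {1} := by
          ext g
          simp only [Finset.mem_filter, Finset.mem_univ, true_and, Finset.mem_singleton]
          rw [← orderOf_eq_one_iff]
          have := orderOf_pos g
          omega
        rw [h1, Finset.card_singleton]
        exact Finset.card_pos.2 ⟨1, by simp⟩
    · rcases Nat.lt_or_ge k 61 with hk' | hk'
      · calc (Finset.univ.filter (fun g : G => orderOf g ≤ k)).card
            ≤ (Finset.univ.filter (fun g : G => orderOf g ≤ 60)).card := by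
              apply Finset.card_le_card
              intro g hg
              rw [Finset.mem_filter] at hg ⊢
              exact ⟨hg.1, by omega⟩
          _ ≤ 60 := few_small h hns
          _ ≤ 61 := by norm_num
          _ ≤ (Finset.univ.filter (fun g : Aff => orderOf g ≤ 2)).card := Aff.many_small
          _ ≤ _ := by
              apply Finset.card_le_card
              intro g hg
              rw [Finset.mem_filter] at hg ⊢
              exact ⟨hg.1, by omega⟩
      · have : (Finset.univ.filter (fun g : Aff => orderOf g ≤ k)) = Finset.univ := by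
          rw [Finset.filter_eq_self]
          intro g _
          exact (Aff.orderOf_le g).trans hk'
        rw [this, Finset.card_univ, Aff.card, ← h]
        exact Finset.card_le_univ _
  have heq := hmin Aff (Aff.card.trans h.symm) hdom
  have h1 := countP_os G 2
  have h2 := countP_os Aff 2
  rw [heq, h1] at h2
  have h3 : (Finset.univ.filter (fun g : G => orderOf g ≤ 2)).card ≤ 60 :=
    (Finset.card_le_card (fun g hg => by
      rw [Finset.mem_filter] at hg ⊢
      exact ⟨hg.1, by omega⟩)).trans (few_small h hns)
  have h4 := Aff.many_small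
  omega

theorem exists_nonsolvable : ∃ (G : Type) (_ : Group G) (_ : Fintype G),
    Fintype.card G = 3660 ∧ ¬ Group.IsSolvable G := by
  refine ⟨alternatingGroup (Fin 5) × Multiplicative (ZMod 61), inferInstance, inferInstance,
    ?_, ?_⟩
  · rw [Fintype.card_prod, Fintype.card_multiplicative, ZMod.card, ← Nat.card_eq_fintype_card]
    have : Nat.card (alternatingGroup (Fin 5)) = 60 := by
      have h := nat_card_alternatingGroup (α := Fin 5)
      rw [h]
      simp [Nat.factorial]
    rw [this]
  · intro hs
    have h1 : Group.IsSolvable (alternatingGroup (Fin 5)) :=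
      Group.isSolvable_of_surjective (f := MonoidHom.fst (alternatingGroup (Fin 5))
        (Multiplicative (ZMod 61))) Prod.fst_surjective
    apply Equiv.Perm.not_isSolvable_fin_5
    rw [Group.isSolvable_iff_subgroup_quotient (alternatingGroup (Fin 5))]
    refine ⟨h1, ?_⟩
    have h2 : Function.Injective (QuotientGroup.kerLift
      (Equiv.Perm.sign : Equiv.Perm (Fin 5) →* ℤˣ)) := QuotientGroup.kerLift_injective _
    exact Group.isSolvable_of_isSolvable_injective h2

end Pool.Agent.Q93.OS
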