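import Mathlib

/-!
# Groups of order 3660 = 60 * 61: solvability lemmas
-/

namespace Pool.Agent.Q93.OS

open Subgroup

theorem solv_of_pgroup {p : ℕ} [Fact p.Prime] {G : Type*} [Group G] [Finite G] (k : ℕ)
    (h : Nat.card G = p ^ k) : Group.IsSolvable G := by
  have h1 : IsPGroup p G := IsPGroup.of_card h
  have := h1.isNilpotent
  infer_instance

theorem solv_of_squarefree {G : Type*} [Group G] [Finite G]
    (h : Squarefree (Nat.card G)) : Group.IsSolvable G := by
  have := IsZGroup.of_squarefree h
  infer_instance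

theorem sylow_unique_normal {G : Type*} [Group G] [Finite G] {p : ℕ} [Fact p.Prime]
    (h : Nat.card (Sylow p G) = 1) (P : Sylow p G) : (P : Subgroup G).Normal := by
  have : Subsingleton (Sylow p G) := (Nat.card_eq_one_iff_unique.1 h).1
  exact P.normal_of_subsingleton

theorem solv_four {G : Type*} [Group G] [Finite G] (h : Nat.card G = 4) :
    Group.IsSolvable G := by
  have : Fact (Nat.Prime 2) := ⟨Nat.prime_two⟩
  exact solv_of_pgroup (p := 2) 2 (by rw [h]; norm_num)

theorem card_sylow_dvd {G : Type*} [Group G] [Finite G] {p k m : ℕ} [hp : Fact p.Prime]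
    (hG : Nat.card G = p ^ k * m) (hm : ¬ p ∣ m) (P : Sylow p G) :
    Nat.card P = p ^ k ∧ (P : Subgroup G).index = m := by
  have h1 : Nat.card P = p ^ k := by
    rw [P.card_eq_multiplicity, hG]
    have hm0 : m ≠ 0 := fun h => hm (h ▸ dvd_zero _)
    rw [Nat.factorization_mul (pow_ne_zero _ hp.1.ne_zero) hm0]
    simp [hp.1.factorization_self, Nat.factorization_eq_zero_of_not_dvd hm]
  refine ⟨h1, ?_⟩
  have h2 := (P : Subgroup G).card_mul_index
  rw [h1, hG] at h2
  exact Nat.eq_of_mul_eq_mul_left (pow_pos hp.1.pos _) h2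

theorem solv_twenty {G : Type*} [Group G] [Finite G] (h : Nat.card G = 20) :
    Group.IsSolvable G := by
  have hp : Fact (Nat.Prime 5) := ⟨by norm_num⟩
  obtain ⟨P⟩ : Nonempty (Sylow 5 G) := inferInstance
  obtain ⟨h1, h2⟩ := card_sylow_dvd (k := 1) (m := 4) (by rw [h]; norm_num) (by norm_num) P
  have h3 : Nat.card (Sylow 5 G) ∣ 4 := h2 ▸ P.card_dvd_index
  have h4 : Nat.card (Sylow 5 G) ≡ 1 [MOD 5] := card_sylow_modEq_one 5 G
  have h5 : Nat.card (Sylow 5 G) ≤ 4 := Nat.le_of_dvd (by norm_num) h3
  have h6 : Nat.card (Sylow 5 G) = 1 := by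
    unfold Nat.ModEq at h4
    omega
  have hN := sylow_unique_normal h6 P
  rw [Group.isSolvable_iff_subgroup_quotient (P : Subgroup G)]
  constructor
  · exact solv_of_pgroup 1 h1
  · apply solv_four
    exact h2

theorem solv_twelve {G : Type*} [Group G] [Finite G] (h : Nat.card G = 12) :
    Group.IsSolvable G := by
  have hp : Fact (Nat.Prime 3) := ⟨by norm_num⟩
  obtain ⟨P⟩ : Nonempty (Sylow 3 G) := inferInstance
  obtain ⟨h1, h2⟩ := card_sylow_dvd (k := 1) (m := 4) (by rw [h]; norm_num) (by norm_num) P
  have h3 : Nat.card (Sylow 3 G) ∣ 4 := h2 ▸ P.card_dvd_index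
  have h4 : Nat.card (Sylow 3 G) ≡ 1 [MOD 3] := card_sylow_modEq_one 3 G
  have h5 : Nat.card (Sylow 3 G) ≤ 4 := Nat.le_of_dvd (by norm_num) h3
  have h6 : Nat.card (Sylow 3 G) = 1 ∨ Nat.card (Sylow 3 G) = 4 := by
    unfold Nat.ModEq at h4
    interval_cases hh : Nat.card (Sylow 3 G) <;> simp_all
  have hPs : Group.IsSolvable P := solv_of_pgroup 1 h1
  rcases h6 with h6 | h6
  · have hN := sylow_unique_normal h6 P
    rw [Group.isSolvable_iff_subgroup_quotient (P : Subgroup G)]
    exact ⟨hPs, solv_four h2⟩
  · -- self-normalizing Sylow 3-subgroup: Burnside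
    have h7 : (normalizer (P : Set G)).index = 4 := by
      rw [← P.card_eq_index_normalizer, h6]
    have h8 : normalizer (P : Set G) = (P : Subgroup G) := by
      apply le_antisymm _ le_normalizer
      have h9 := relIndex_mul_index (le_normalizer (H := (P : Subgroup G)))
      have h10 : (normalizer ((P : Subgroup G) : Set G)).index = 4 := h7
      rw [h2, h10] at h9
      have : (P : Subgroup G).relIndex (normalizer ((P : Subgroup G) : Set G)) = 1 := by omega
      exact relIndex_eq_one.1 this
    have hcyc : IsCyclic P := isCyclic_of_prime_card (p := 3) (by rw [h1]; norm_num)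
    have hle : normalizer (P : Set G) ≤ centralizer (P : Set G) := by
      rw [h8]
      intro x hx
      rw [mem_centralizer_iff]
      intro y hy
      have := mul_comm' (⟨y, hy⟩ : P) ⟨x, hx⟩
      exact congrArg Subtype.val this
    have hcomp := MonoidHom.ker_transferSylow_isComplement' P hle
    set K := (MonoidHom.transferSylow P hle).ker
    have hK : Nat.card K = 4 := by
      have := hcomp.card_mul_card
      rw [h1, h] at this
      omega
    rw [Group.isSolvable_iff_subgroup_quotient K]
    refine ⟨solv_four hK, ?_⟩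
    have := K.card_mul_index
    rw [hK, h] at this
    have hidx : K.index = 3 := by omega
    exact solv_of_pgroup (p := 3) 1 (by rw [pow_one]; exact hidx)

theorem solv_proper {G : Type*} [Group G] [Finite G] (h : Nat.card G ∣ 60)
    (h' : Nat.card G ≠ 60) : Group.IsSolvable G := by
  have hmem : Nat.card G ∈ Nat.divisors 60 := Nat.mem_divisors.2 ⟨h, by norm_num⟩
  have hd : Nat.divisors 60 = {1, 2, 3, 4, 5, 6, 10, 12, 15, 20, 30, 60} := by decide +kernel
  rw [hd] at hmem
  simp only [Finset.mem_insert, Finset.mem_singleton] at hmem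
  have hsq : ∀ n ∈ ({1, 2, 3, 5, 6, 10, 15, 30} : Finset ℕ), Squarefree n := by
    intro n hn
    have : n ∣ 30 := by
      simp only [Finset.mem_insert, Finset.mem_singleton] at hn
      rcases hn with rfl | rfl | rfl | rfl | rfl | rfl | rfl | rfl <;> decide
    have h30 : Squarefree 30 := by
      rw [show (30 : ℕ) = 2 * (3 * 5) by norm_num, Nat.squarefree_mul_iff, Nat.squarefree_mul_iff]
      exact ⟨by norm_num, Nat.prime_two.prime.squarefree, by norm_num,
        Nat.prime_three.prime.squarefree, Nat.prime_five.prime.squarefree⟩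
    exact h30.squarefree_of_dvd this
  rcases hmem with h | h | h | h | h | h | h | h | h | h | h | h
  · exact solv_of_squarefree (hsq _ (by rw [h]; decide))
  · exact solv_of_squarefree (hsq _ (by rw [h]; decide))
  · exact solv_of_squarefree (hsq _ (by rw [h]; decide))
  · exact solv_four h
  · exact solv_of_squarefree (hsq _ (by rw [h]; decide))
  · exact solv_of_squarefree (hsq _ (by rw [h]; decide))
  · exact solv_of_squarefree (hsq _ (by rw [h]; decide))
  · exact solv_twelve h
  · exact solv_of_squarefree (hsq _ (by rw [h]; decide))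
  · exact solv_twenty h
  · exact solv_of_squarefree (hsq _ (by rw [h]; decide))
  · exact absurd h h'

/-- In a non-solvable group of order 3660 the Sylow 61-subgroup is central. -/
theorem central_of_not_solvable {G : Type*} [Group G] [Finite G] (h : Nat.card G = 3660)
    (hns : ¬ Group.IsSolvable G) : ∃ Q : Subgroup G, Nat.card Q = 61 ∧ Q.index = 60 ∧
      Q ≤ center G := by
  have hp : Fact (Nat.Prime 61) := ⟨by norm_num⟩
  obtain ⟨P⟩ : Nonempty (Sylow 61 G) := inferInstance
  obtain ⟨h1, h2⟩ := card_sylow_dvd (k := 1) (m := 60) (by rw [h]; norm_num) (by norm_num) P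
  have h3 : Nat.card (Sylow 61 G) ∣ 60 := h2 ▸ P.card_dvd_index
  have h4 : Nat.card (Sylow 61 G) ≡ 1 [MOD 61] := card_sylow_modEq_one 61 G
  have h5 : Nat.card (Sylow 61 G) ≤ 60 := Nat.le_of_dvd (by norm_num) h3
  have h6 : Nat.card (Sylow 61 G) = 1 := by
    unfold Nat.ModEq at h4
    omega
  have hN := sylow_unique_normal h6 P
  rw [pow_one] at h1
  refine ⟨P, h1, h2, ?_⟩
  have hcyc : IsCyclic P := isCyclic_of_prime_card (p := 61) h1
  -- the centralizer is the kernel of the conjugation action
  let φ : G →* MulAut (P : Subgroup G) := MulAut.conjNormal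
  have hab : Group.IsSolvable (MulAut (P : Subgroup G)) :=
    Group.isSolvable_of_isSolvable_injective
      (f := (IsCyclic.mulAutMulEquiv (P : Subgroup G)).toMonoidHom)
      (IsCyclic.mulAutMulEquiv (P : Subgroup G)).injective
  let C : Subgroup G := φ.ker
  have hPC : (P : Subgroup G) ≤ C := by
    intro x hx
    rw [MonoidHom.mem_ker]
    ext y
    rw [MulAut.conjNormal_apply]
    have := mul_comm' (⟨x, hx⟩ : P) y
    have h7 : x * (y : G) = y * x := congrArg Subtype.val this
    rw [h7]; simp
  by_cases hC : C = ⊤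
  · intro x hx
    rw [mem_center_iff]
    intro g
    have hg : g ∈ C := by rw [hC]; trivial
    rw [MonoidHom.mem_ker] at hg
    have : ((φ g ⟨x, hx⟩ : (P : Subgroup G)) : G) = x := by rw [hg]; rfl
    rw [MulAut.conjNormal_apply] at this
    have h8 : g * x * g⁻¹ * g = x * g := by rw [this]
    simpa using h8
  · exfalso
    apply hns
    -- the quotient by `C` is solvable
    have hq : Group.IsSolvable (G ⧸ C) :=
      Group.isSolvable_of_isSolvable_injective (f := QuotientGroup.kerLift φ)
        (QuotientGroup.kerLift_injective φ)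
    rw [Group.isSolvable_iff_subgroup_quotient C]
    refine ⟨?_, hq⟩
    have hNN : ((P : Subgroup G).subgroupOf C).Normal := inferInstance
    rw [Group.isSolvable_iff_subgroup_quotient ((P : Subgroup G).subgroupOf C)]
    have hPcard : Nat.card ((P : Subgroup G).subgroupOf C) = 61 := by
      rw [Nat.card_congr (subgroupOfEquivOfLe hPC).toEquiv, h1]
    constructor
    · exact solv_of_pgroup (p := 61) 1 (by rw [hPcard]; norm_num)
    · have hrel : ((P : Subgroup G).subgroupOf C).index * C.index = 60 := by
        have := relIndex_mul_index hPC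
        rw [h2] at this
        exact this
      apply solv_proper
      · exact Dvd.intro _ hrel
      · intro h60
        have h60' : ((P : Subgroup G).subgroupOf C).index = 60 := h60
        rw [h60'] at hrel
        have : C.index = 1 := by omega
        exact hC (index_eq_one.1 this)

end Pool.Agent.Q93.OS
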